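import Pool.Agent.MP_a88b1d_nt.H42.Cert

/-! Assembly of the rows. -/

open Polynomial

namespace Pool.Agent.MP_a88b1d_nt.H42

variable {C : Type} [NontriviallyNormedField C] [Algebra (ZMod 2) C]

def RELEX (T : C) : Prop := ∃ ff : Gam0 (pp * qq) → ℕ → ℕ × ℕ → ℤ,
  (∀ μ, Rel T μ (ff μ)) ∧ ∀ μ ν i P, ff (μ * ν) i P = ff μ i P + ff ν i P

theorem gn_of (T : C) (hr : RELEX T) (h1 : EQ1 T) (ha : EQA T) (hb : EQB T) (ho : COB T) :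
    GN T := by
  obtain ⟨ff, hff, hadd⟩ := hr
  refine ⟨fun μ => Cert.LL (ff μ 0), fun μ ν => ?_, fun μ hμ h0 a => ?_⟩
  · have e : ff (μ * ν) 0 = fun P => ff μ 0 P + ff ν 0 P := funext fun P => hadd μ ν 0 P
    show Cert.LL (ff (μ * ν) 0) = Cert.LL (ff μ 0) + Cert.LL (ff ν 0)
    rw [e]
    exact Cert.LL_add _ _
  · exact ho μ (ff μ) (hff μ)
      (Cert.cob_of (h1 μ _ (hff μ)) (ha μ _ hμ (hff μ)) (hb μ _ hμ (hff μ)) h0) a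

theorem gd_of (T : C) (ht : TREE T) (hd : DCOMB) (h : DG59 T) : GD T := by
  intro e ι hs
  obtain ⟨g, tgt, rev, γ, l, hq, hw, hc⟩ := h e ι hs
  refine ⟨fun i => ((l i).map γ).prod, fun c hcc => hc c fun i => ?_⟩
  have := hcc ((l i).map γ).prod
  simpa only [hd _ _ _ _ _ _ _ _ _ _ ht.tree hs.good.2 hq _ _ (hw _) (hw _)] using this

theorem not_equiv {K : Type} [Group K] (h : 3 ∣ Nat.card K) :
    IsEmpty (K ≃* Multiplicative (ZMod 65 × ZMod 5)) := by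
  refine ⟨fun e => ?_⟩
  have h1 : Nat.card K = 325 := by
    rw [Nat.card_congr e.toEquiv, Nat.card_congr Multiplicative.toAdd, Nat.card_prod,
      Nat.card_zmod, Nat.card_zmod]
  rw [h1] at h
  omega

theorem main_of (T : C) (hm : PM T) (he : PER T) (hemb : EMB T) (hsn : SN T) (htr : TRANS T)
    (hgd : GD T) (hf : FIN T) :
    (∃ ι, Emb T ι) ∧ (∃ w z, Adm (rho0 T (pp * qq)) T w z) ∧ ∀ ι, Emb T ι →
      (∃ w z, Adm (rhoD ι) T w z) ∧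
      ∀ w z w' z', Adm (rho0 T (pp * qq)) T w z → Adm (rhoD ι) T w' z' →
        (∀ a, ∃ χ, IsPeriod (rho0 T (pp * qq)) w z a χ) ∧
        (∀ a, ∃ χ, IsPeriod (rhoD ι) w' z' a χ) ∧
        ∀ ψ : Jnew T (pp * qq) w z →* Jac (rhoD ι) w' z', IsIsogeny ψ →
          3 ∣ Nat.card ψ.ker ∧ IsEmpty (ψ.ker ≃* Multiplicative (ZMod 65 × ZMod 5)) := by
  obtain ⟨e, ι0, hs⟩ := hemb
  have h0 := he _ (r0 T (pp * qq)) (hm.good0 _)
  refine ⟨⟨ι0, hs.emb⟩, h0.1, fun ι hι => ?_⟩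
  obtain ⟨h, hh⟩ := hsn ι0 ι hs.emb hι
  have hg : Good (rD hι) ∧ GramOK (rD hι) :=
    htr _ (rD hs.emb) (rD hι) h (fun g => Subtype.ext (hh g.1)) hs.good (hgd e ι0 hs)
  have hD := he _ (rD hι) hg.1
  refine ⟨hD.1, fun w z w' z' ha ha' => ⟨fun a => ?_, fun a => ?_, fun ψ hψ => ?_⟩⟩
  · obtain ⟨χ, hχ, -⟩ := (h0.2 w z ha).1 a
    exact ⟨χ, hχ⟩
  · obtain ⟨χ, hχ, -⟩ := (hD.2 w' z' ha').1 a
    exact ⟨χ, hχ⟩
  · have h3 := hf _ (rD hι) hg.1 hg.2 w z w' z' ha ha' ψ hψ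
    exact ⟨h3, not_equiv h3⟩

end Pool.Agent.MP_a88b1d_nt.H42
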