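import Pool.Agent.MP_a88b1d_nt.H42.St
import Pool.Agent.MP_a88b1d_nt.H42.Main

/-! From the working definitions to the definitions of the final statement. -/

open Polynomial Quaternion

namespace Pool.Agent.MP_a88b1d_nt.H42

theorem intg_iff (y : Quat FF) : St.Intg y ↔ Intg y := by
  simp only [St.Intg, Intg, List.mem_cons, List.not_mem_nil, or_false, forall_eq_or_imp,
    forall_eq, Set.mem_range]
  constructor
  · rintro ⟨⟨a, ha⟩, ⟨b, hb⟩, ⟨c, hc⟩, ⟨d, hd⟩⟩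
    exact ⟨⟨a, b, c, d⟩, ha.symm, hb.symm, hc.symm, hd.symm⟩
  · rintro ⟨x, ha, hb, hc, hd⟩
    exact ⟨⟨_, ha.symm⟩, ⟨_, hb.symm⟩, ⟨_, hc.symm⟩, ⟨_, hd.symm⟩⟩

variable {C : Type} [NontriviallyNormedField C] [Algebra (ZMod 2) C]

theorem old_eq (T : C) (n : A) (w z : C) (O : Subgroup (Jac (rho0 T n) w z))
    (h : St.IsOld (H := Gam0 n) n (Lat (rho0 T n) w z) O) : O = Jold T n w z := by
  rw [h.eq]
  unfold Jold
  refine congrArg Subgroup.closure (Set.ext fun x => ⟨?_, ?_⟩)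
  · rintro ⟨m, d, χ, h1, h2, h3, ⟨χ', h4⟩⟩
    exact ⟨m, d, χ, χ', h1, h2, h3, h4⟩
  · rintro ⟨m, d, χ, χ', h1, h2, h3, h4⟩
    exact ⟨m, d, χ, h1, h2, h3, ⟨χ', h4⟩⟩

theorem kernelFails_of (T : C) (hm : PM T) (he : PER T) (hemb : EMB T) (hsn : SN T)
    (htr : TRANS T) (hgd : GD T) (hf : FIN T) :
    St.KernelFails T (pp * qq) (Gam0 (pp * qq)) (Quat A) := by
  obtain ⟨h1, h2, h3⟩ := main_of T hm he hemb hsn htr hgd hf
  obtain ⟨ι0, hι0⟩ := h1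
  obtain ⟨w0, z0, h0⟩ := h2
  refine ⟨⟨ι0, hι0⟩, ⟨w0, z0, h0⟩, fun w z ha => ?_, fun ι hι => (h3 ι hι).1,
    fun ι hι w z ha => ?_, fun ι hι w z w' z' ha ha' Λ O hΛ hO => ?_⟩
  · obtain ⟨w', z', ha'⟩ := (h3 ι0 hι0).1
    exact ⟨((h3 ι0 hι0).2 w z w' z' ha ha').1⟩
  · exact ⟨((h3 ι hι).2 w0 z0 w z h0 ha).2.1⟩
  · subst hΛ
    have e := old_eq T (pp * qq) w z O hO
    subst e
    exact ⟨fun ψ hψ => ((h3 ι hι).2 w z w' z' ha ha').2.2 ψ ⟨hψ.lift, hψ.surj, hψ.fin⟩⟩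

end Pool.Agent.MP_a88b1d_nt.H42
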