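import Pool.Agent.MP_a88b1d_nt.H42.CertData

/-! The rank bound on the side of `Γ_0(n)`. -/

open Finset

namespace Pool.Agent.MP_a88b1d_nt.H42.Cert

def Rep (u : ℕ → ZMod 3) (v w : ℕ) (s : ZMod 3) : Prop :=
  ∃ c : ℕ → ℕ, v = ∑ t ∈ range 105, c t * 1048576 ^ t ∧ ∑ t ∈ range 105, c t ≤ w ∧
    s = ∑ t ∈ range 105, (c t : ZMod 3) * u t

variable {u : ℕ → ZMod 3}

theorem Rep.zero : Rep u 0 0 0 := ⟨fun _ => 0, by simp, by simp, by simp⟩

theorem Rep.mono {v w w' : ℕ} {s : ZMod 3} (h : Rep u v w s) (hw : w ≤ w') : Rep u v w' s := by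
  obtain ⟨c, h1, h2, h3⟩ := h
  exact ⟨c, h1, h2.trans hw, h3⟩

theorem Rep.add {v w v' w' : ℕ} {s s' : ZMod 3} (h : Rep u v w s) (h' : Rep u v' w' s') :
    Rep u (v + v') (w + w') (s + s') := by
  obtain ⟨c, h1, h2, h3⟩ := h
  obtain ⟨c', h1', h2', h3'⟩ := h'
  refine ⟨fun t => c t + c' t, ?_, ?_, ?_⟩
  · rw [h1, h1', ← sum_add_distrib]
    exact sum_congr rfl fun t _ => (add_mul _ _ _).symm
  · rw [sum_add_distrib]; omega
  · rw [h3, h3', ← sum_add_distrib]
    exact sum_congr rfl fun t _ => by push_cast; ring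

theorem Rep.smul {v w : ℕ} {s : ZMod 3} (k : ℕ) (h : Rep u v w s) :
    Rep u (k * v) (k * w) (k * s) := by
  induction k with
  | zero => simpa using Rep.zero
  | succ k ih =>
    have := ih.add h
    rw [Nat.succ_mul, Nat.succ_mul, Nat.cast_succ, add_mul, one_mul]
    exact this

theorem Rep.basis (t : ℕ) (ht : t < 105) : Rep u (1048576 ^ t) 1 (u t) := by
  refine ⟨fun j => if j = t then 1 else 0, ?_, ?_, ?_⟩
  · simp [ht]
  · simp [ht]
  · simp [ht]

theorem allDig_zero (k : ℕ) : allDig k 0 = true := by cases k <;> simp [allDig]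

theorem zero_of_allDig (N : ℕ) (c : ℕ → ℕ) (u : ℕ → ZMod 3) (hc : ∀ t, t < N → c t < 1048576)
    (h : allDig N (∑ t ∈ range N, c t * 1048576 ^ t) = true) :
    ∑ t ∈ range N, (c t : ZMod 3) * u t = 0 := by
  induction N generalizing c u with
  | zero => simp
  | succ N ih =>
    have e : ∑ t ∈ range (N + 1), c t * 1048576 ^ t =
        c 0 + 1048576 * ∑ t ∈ range N, c (t + 1) * 1048576 ^ t := by
      rw [sum_range_succ', mul_sum, pow_zero, mul_one, add_comm]
      congr 1
      exact sum_congr rfl fun t _ => by ring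
    rw [e] at h
    have h0 := hc 0 (by omega)
    generalize hx : ∑ t ∈ range N, c (t + 1) * 1048576 ^ t = x at h
    have h1 : (c 0 + 1048576 * x) % 1048576 = c 0 := by omega
    have h2 : (c 0 + 1048576 * x) / 1048576 = x := by omega
    have h3 : c 0 % 3 = 0 ∧ allDig N x = true := by
      simp only [allDig, h1, h2, Bool.or_eq_true, Bool.and_eq_true, beq_iff_eq] at h
      rcases h with h | h
      · have hx0 : x = 0 := by omega
        exact ⟨by omega, hx0 ▸ allDig_zero N⟩
      · exact h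
    rw [sum_range_succ', ih (fun t => c (t + 1)) (fun t => u (t + 1))
      (fun t ht => hc _ (by omega)) (hx ▸ h3.2)]
    have : (c 0 : ZMod 3) = 0 := (ZMod.natCast_eq_zero_iff _ 3).2 (by omega)
    rw [this]; simp

theorem Rep.eq_zero {v w : ℕ} {s : ZMod 3} (h : Rep u v w s) (hw : w < 1048576)
    (hd : allDig 105 v = true) : s = 0 := by
  obtain ⟨c, h1, h2, h3⟩ := h
  rw [h3]
  refine zero_of_allDig 105 c u (fun t ht => ?_) (h1 ▸ hd)
  have := single_le_sum (f := c) (fun i _ => Nat.zero_le (c i)) (mem_range.2 ht)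
  omega

theorem Rep.eq {v w v' w' : ℕ} {s s' : ZMod 3} (h : Rep u v w s) (h' : Rep u v' w' s')
    (hw : w + 2 * w' < 1048576) (hd : allDig 105 (v + 2 * v') = true) : s = s' := by
  have := (h.add (h'.smul 2)).eq_zero hw hd
  have h3 : (3 : ZMod 3) = 0 := rfl
  push_cast at this
  linear_combination this - s' * h3

def lin (u : ℕ → ZMod 3) : ℕ → ℕ → ZMod 3
  | 0, _ => 0
  | k + 1, v => lin u k v + (((v >>> (2 * k)) % 4 : ℕ) : ZMod 3) * u k

theorem lin_add (u u' : ℕ → ZMod 3) (k v : ℕ) :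
    lin (fun t => u t + u' t) k v = lin u k v + lin u' k v := by
  induction k with
  | zero => simp [lin]
  | succ k ih => simp only [lin, ih]; ring

theorem rep_ex (k v : ℕ) (hk : k ≤ 105) : Rep u (ex k v) (3 * k) (lin u k v) := by
  induction k with
  | zero => exact Rep.zero
  | succ k ih =>
    have h1 := (ih (by omega)).add ((Rep.basis (u := u) k (by omega)).smul ((v >>> (2 * k)) % 4))
    refine h1.mono ?_
    have : (v >>> (2 * k)) % 4 < 4 := Nat.mod_lt _ (by norm_num)
    omega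

theorem rep_ex7 (v : ℕ) : Rep u (ex 7 v) 21 (lin u 7 v) := rep_ex 7 v (by norm_num)

theorem rep_cmb (l : List ℕ) (W a : ℕ) (h : ∀ e ∈ l, Rep u e W 0) :
    Rep u (cmb l a) (3 * W * l.length) 0 := by
  induction l generalizing a with
  | nil => exact Rep.zero
  | cons e l ih =>
    have h1 := ((h e (by simp)).smul (a % 4)).add (ih (a / 4) fun e' he' => h e' (by simp [he']))
    rw [mul_zero, add_zero] at h1
    refine h1.mono ?_
    have : a % 4 * W ≤ 3 * W := Nat.mul_le_mul_right _ (by omega)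
    rw [List.length_cons, Nat.mul_succ]
    omega

theorem allP_spec {p : ℕ × ℕ → Bool} (h : allP p = true) (P : ℕ × ℕ) (hP : Valid P) :
    p P = true := by
  simp only [allP, List.all_eq_true, List.mem_range] at h
  exact h P.1 (by have := hP.1; omega) P.2 (by have := hP.2; omega)

theorem vb_spec {P : ℕ × ℕ} (h : vb P = true) : Valid P := by
  simpa [vb, Valid] using h

theorem cl_facts (P : ℕ × ℕ) (hP : Valid P) : cl P < 163 ∧
    (P = pt (cl P) ∨ addT 0 P = pt (cl P)) ∧ rq 0 P = rq 0 (pt (cl P)) ∧ fq (wP P) = fq P ∧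
    Valid (wP P) ∧ ∀ k, k ≤ 7 → Valid (addT k P) := by
  have h := allP_spec chk_cl P hP
  simp only [Bool.and_eq_true, Bool.or_eq_true, decide_eq_true_eq, beq_iff_eq, List.all_eq_true,
    List.mem_range] at h
  obtain ⟨⟨⟨⟨⟨h1, h2⟩, h3⟩, h4⟩, h5⟩, h6⟩ := h
  exact ⟨h1, h2, h3, h4, vb_spec h5, fun k hk => vb_spec (h6 k (by omega))⟩

/-- The 58 linear forms. -/
def LL (g : ℕ × ℕ → ℤ) (j : Fin 58) : ZMod 3 :=
  (g (pt j) : ZMod 3) - lin (fun m => (g (pt (58 + m)) : ZMod 3)) 7 (rq 0 (pt j))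

theorem LL_add (g g' : ℕ × ℕ → ℤ) : LL (fun P => g P + g' P) = LL g + LL g' := by
  funext j
  simp only [LL, Pi.add_apply, Int.cast_add, lin_add]
  ring

section
variable {f : ℕ → ℕ × ℕ → ℤ}

/-- The unknowns. -/
def uu (f : ℕ → ℕ × ℕ → ℤ) (m : ℕ) : ZMod 3 := (f 0 (pt (58 + m)) : ZMod 3)

theorem f0_cl (h1 : Sys1 f) (P : ℕ × ℕ) (hP : Valid P) : f 0 P = f 0 (pt (cl P)) := by
  rcases (cl_facts P hP).2.1 with h | h
  · rw [← h]
  · rw [← h, h1.inv 0 0 P le_rfl (by norm_num) hP]

theorem rep_pk (hL : LL (f 0) = 0) (t : ℕ) (ht : t < 163) :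
    Rep (uu f) (pk t) 21 (f 0 (pt t) : ZMod 3) := by
  unfold pk
  split_ifs with h
  · have := congrFun hL ⟨t, h⟩
    simp only [LL, Pi.zero_apply, sub_eq_zero] at this
    rw [this]
    exact rep_ex7 _
  · have h2 := (Rep.basis (u := uu f) (t - 58) (by omega)).mono (show 1 ≤ 21 by norm_num)
    have e : 58 + (t - 58) = t := by omega
    rw [uu, e] at h2
    exact h2

theorem rep_pv (h1 : Sys1 f) (hL : LL (f 0) = 0) (i : ℕ) (hi : i ≤ 7) (P : ℕ × ℕ)
    (hP : Valid P) : Rep (uu f) (pv i P) (21 * 2 ^ i) (f i P : ZMod 3) := by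
  induction i generalizing P with
  | zero =>
    rw [f0_cl h1 P hP]
    exact rep_pk hL _ (cl_facts P hP).1
  | succ i ih =>
    rw [h1.step i P (by omega) hP, Int.cast_add]
    exact ((ih (by omega) P hP).add
      (ih (by omega) _ ((cl_facts P hP).2.2.2.2.2 _ hi))).mono (by omega)

theorem rep_eqv (h1 : Sys1 f) (ha : SysA f) (hb : SysB f) (hL : LL (f 0) = 0) (t x y : ℕ)
    (h : eqok t x y = true) : Rep (uu f) (eqv t x y) 2688 0 := by
  simp only [eqok, Bool.and_eq_true, Bool.or_eq_true, decide_eq_true_eq, beq_iff_eq] at h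
  obtain ⟨⟨hx, hy⟩, h⟩ := h
  have hP : Valid (x, y) := ⟨hx, hy⟩
  have hw := fun P hP => (cl_facts P hP).2.2.2.2.1
  have hT := fun P hP => (cl_facts P hP).2.2.2.2.2
  have R := rep_pv h1 hL
  have h3 : (3 : ZMod 3) = 0 := rfl
  unfold eqv
  split_ifs with t0 t1 t2 t3
  · have := ((R 0 (by norm_num) _ hP).add (R 0 (by norm_num) _ (hw _ hP))).add
      (R 0 (by norm_num) _ (hw _ (hT _ hP 0 (by norm_num))))
    rw [← Int.cast_add, ← Int.cast_add, h1.tri _ hP, Int.cast_zero] at this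
    exact this.mono (by norm_num)
  · have := R 7 le_rfl _ hP
    rw [h1.cusp 7 _ le_rfl hP, Int.cast_zero] at this
    exact this.mono (by norm_num)
  · have V : ∀ a, a ≤ 4 → Valid (a, y) := fun a h => ⟨h, hy⟩
    have := ((((R 0 (by norm_num) _ (V 0 (by norm_num))).add
      (R 0 (by norm_num) _ (V 1 (by norm_num)))).add
      (R 0 (by norm_num) _ (V 2 (by norm_num)))).add
      (R 0 (by norm_num) _ (V 3 (by norm_num)))).add (R 0 (by norm_num) _ (V 4 (by norm_num)))
    rw [← Int.cast_add, ← Int.cast_add, ← Int.cast_add, ← Int.cast_add, ha y hy,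
      Int.cast_zero] at this
    exact this.mono (by norm_num)
  · have hc := chk_y
    simp only [List.all_eq_true, List.mem_range, Bool.and_eq_true, decide_eq_true_eq] at hc
    obtain ⟨c1, c2⟩ := hc y (by omega)
    have V : ∀ a, a < 4 → Valid (wP (4, dp (ad 64 a y))) := fun a h => hw _ ⟨le_rfl, c2 a h⟩
    have := ((((R 2 (by norm_num) (0, mp y) ⟨by norm_num, c1⟩).add
      ((R 1 (by norm_num) _ (V 0 (by norm_num))).smul 2)).add
      ((R 1 (by norm_num) _ (V 1 (by norm_num))).smul 2)).add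
      (R 0 (by norm_num) _ (hT _ (V 2 (by norm_num)) 1 (by norm_num)))).add
      (R 0 (by norm_num) _ (hT _ (V 3 (by norm_num)) 1 (by norm_num)))
    have e := congrArg (Int.cast : ℤ → ZMod 3) (hb y hy)
    push_cast at e this
    have e' : (f 2 (0, mp y) : ZMod 3) + 2 * (f 1 (wP (4, dp (ad 64 0 y))) : ZMod 3) +
        2 * (f 1 (wP (4, dp (ad 64 1 y))) : ZMod 3) +
        (f 0 (addT 1 (wP (4, dp (ad 64 2 y)))) : ZMod 3) +
        (f 0 (addT 1 (wP (4, dp (ad 64 3 y)))) : ZMod 3) = 0 := by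
      linear_combination e + ((f 1 (wP (4, dp (ad 64 0 y))) : ZMod 3) +
        (f 1 (wP (4, dp (ad 64 1 y))) : ZMod 3)) * h3
    rw [e'] at this
    exact this.mono (by norm_num)
  · rcases h with h | h
    · omega
    · have := R 0 (by norm_num) _ hP
      have e := h1.tri _ hP
      rw [f0_cl h1 _ (hw _ hP), f0_cl h1 _ (hw _ (hT _ hP 0 (by norm_num))), h.1, h.2,
        ← f0_cl h1 _ hP] at e
      have e' : f 0 (x, y) = 0 := by omega
      rw [e', Int.cast_zero] at this
      exact this.mono (by norm_num)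

theorem f0_lin (h1 : Sys1 f) (ha : SysA f) (hb : SysB f) (hL : LL (f 0) = 0) (t : ℕ)
    (ht : t < 163) : (f 0 (pt t) : ZMod 3) = lin (uu f) 7 (rq 0 (pt t)) := by
  by_cases h : t < 65
  · have hc := chk_low
    simp only [List.all_eq_true, List.mem_range] at hc
    exact (rep_pk hL t ht).eq (rep_ex7 _) (by norm_num) (hc t h)
  · have hc := chk_A
    simp only [List.all_eq_true, List.mem_range] at hc
    have hc' := hc (t - 65) (by omega)
    have e : 65 + (t - 65) = t := by omega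
    rw [e] at hc'
    have hE : ∀ v ∈ EV, Rep (uu f) v 2688 0 := by
      intro v hv
      obtain ⟨q, hq, rfl⟩ := List.mem_map.1 hv
      have hk := chk_ok
      simp only [List.all_eq_true] at hk
      exact rep_eqv h1 ha hb hL _ _ _ (hk q hq)
    have hlen : EV.length = 98 := by rw [EV, List.length_map, chk_len]
    have h2 := (rep_cmb EV 2688 (AR.getD (t - 65) 0) hE).add (rep_pk hL t ht)
    rw [hlen, zero_add] at h2
    exact h2.eq (rep_ex7 _) (by norm_num) hc'

theorem fi_lin (h1 : Sys1 f) (ha : SysA f) (hb : SysB f) (hL : LL (f 0) = 0) (i : ℕ)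
    (hi : i ≤ 6) (P : ℕ × ℕ) (hP : Valid P) : (f i P : ZMod 3) = lin (uu f) 7 (rq i P) := by
  induction i generalizing P with
  | zero =>
    rw [f0_cl h1 P hP, (cl_facts P hP).2.2.1]
    exact f0_lin h1 ha hb hL _ (cl_facts P hP).1
  | succ i ih =>
    have hc := chk_lev
    simp only [List.all_eq_true, List.mem_range] at hc
    have hc' := allP_spec (hc i (by omega)) P hP
    rw [h1.step i P (by omega) hP, Int.cast_add, ih (by omega) P hP,
      ih (by omega) _ ((cl_facts P hP).2.2.2.2.2 _ (by omega))]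
    exact ((rep_ex7 _).add (rep_ex7 _)).eq (rep_ex7 _) (by norm_num) hc'

theorem cob_of (h1 : Sys1 f) (ha : SysA f) (hb : SysB f) (hL : LL (f 0) = 0) : Cob f := by
  let F : ℕ → ℕ × ℕ → ZMod 3 := fun i P =>
    lin (uu f) 7 (fq P) + ∑ j ∈ range i, (f j P : ZMod 3)
  have hs : ∀ i P, F (i + 1) P = F i P + (f i P : ZMod 3) := fun i P => by
    simp only [F, sum_range_succ, add_assoc]
  have hr : ∀ k, k ≤ 7 → ∀ P, Valid P → Rep (uu f) (gq k P) (21 * (k + 1)) (F k P) := by
    intro k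
    induction k with
    | zero => intro _ P _; simpa [F, gq] using rep_ex7 (u := uu f) (fq P)
    | succ k ih =>
      intro hk P hP
      rw [hs, fi_lin h1 ha hb hL k (by omega) P hP]
      exact ((ih (by omega) P hP).add (rep_ex7 _)).mono (by omega)
  refine ⟨F, fun i P _ => hs i P, fun i k P hki hk hP => ?_, fun P hP => ?_⟩
  · induction i, hki using Nat.le_induction with
    | base =>
      have hc := chk_F
      simp only [List.all_eq_true, List.mem_range] at hc
      exact (hr k hk _ ((cl_facts P hP).2.2.2.2.2 _ hk)).eq (hr k hk P hP) (by omega)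
        (allP_spec (hc k (by omega)) P hP)
    | succ i hki ih => rw [hs, hs, ih, h1.inv i k P hki hk hP]
  · simp only [F, (cl_facts P hP).2.2.2.1, range_zero, sum_empty]

end

end Pool.Agent.MP_a88b1d_nt.H42.Cert
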