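import Mathlib

/-!
Rigid-analytic Jacobians of Drinfeld modular curves and of Drinfeld-Stuhler curves over
`F = F_2(T)` (Gekeler-Reversat, Manin-Drinfeld uniformisation).  Here `q = 2`, so the scalar
matrices in the groups below are trivial.
-/

open Polynomial Quaternion

noncomputable section

namespace Pool.Agent.MP_a88b1d_nt.H42

/-- `A = F_2[T]`. -/
abbrev A : Type := (ZMod 2)[X]

/-- The prime of degree 2. -/
def pp : A := X ^ 2 + X + 1

/-- The prime of degree 6. -/
def qq : A := X ^ 6 + X ^ 5 + X ^ 3 + X ^ 2 + 1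

/-- The quaternion algebra `i^2 = T + i`, `j^2 = pp * qq`, `j i = (1 - i) j` over an `A`-algebra. -/
abbrev Quat (R : Type) [CommRing R] [Algebra A R] : Type :=
  ℍ[R, algebraMap A R X, 1, algebraMap A R (pp * qq)]

/-- `F = F_2(T)`. -/
abbrev FF : Type := RatFunc (ZMod 2)

/-- The elements of `Quat F` that lie in the order `Quat A = A + A i + A j + A i j`. -/
def Intg (y : Quat FF) : Prop :=
  ∃ x : Quat A, y.re = algebraMap A FF x.re ∧ y.imI = algebraMap A FF x.imI ∧
    y.imJ = algebraMap A FF x.imJ ∧ y.imK = algebraMap A FF x.imK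

/-- The maximal torsion-free abelian quotient of a group. -/
abbrev Gbar (G : Type) [Group G] : Type :=
  Abelianization G ⧸ CommGroup.torsion (Abelianization G)

/-- The class of a group element in `Gbar G`. -/
def cls {G : Type} [Group G] : G →* Gbar G := (QuotientGroup.mk' _).comp Abelianization.of

/-- The congruence subgroup `Γ_0(m)` of `GL_2(A)`. -/
def Gam0 (m : A) : Subgroup (GL (Fin 2) A) where
  carrier := {g | m ∣ g.1 1 0}
  one_mem' := by simp
  mul_mem' := by
    intro g h hg hh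
    simp only [Set.mem_ofPred_eq, Units.val_mul, Matrix.mul_apply, Fin.sum_univ_two] at *
    exact dvd_add (hg.mul_right _) (hh.mul_left _)
  inv_mem' := by
    intro g hg
    simp only [Set.mem_ofPred_eq] at *
    rw [Matrix.coe_units_inv, Matrix.inv_def, Matrix.adjugate_fin_two]
    simpa using hg.mul_left (Ring.inverse g.1.det)

variable {C : Type} [NontriviallyNormedField C] [Algebra (ZMod 2) C]

/-- `F_∞`: the closure of `F_2(T)` in `C`. -/
def Finf (T : C) : Subfield C := (Subfield.closure {T}).topologicalClosure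

/-- Fractional linear transformations. -/
def mob (g : Matrix (Fin 2) (Fin 2) C) (z : C) : C := (g 0 0 * z + g 0 1) / (g 1 0 * z + g 1 1)

/-- `Γ_0(m)` as matrices over `C`. -/
def rho0 (T : C) (m : A) : Gam0 m →* Matrix (Fin 2) (Fin 2) C :=
  ((aeval T : A →ₐ[ZMod 2] C).mapMatrix.toRingHom.toMonoidHom.comp (Units.coeHom _)).comp
    (Gam0 m).subtype

/-- `ι` is an `A`-algebra map from the order `Quat A` to `M_2(F_∞)`. -/
def Emb (T : C) (ι : Quat A →+* Matrix (Fin 2) (Fin 2) C) : Prop :=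
  (∀ f : A, ι (algebraMap A (Quat A) f) = Matrix.scalar (Fin 2) (aeval T f)) ∧
    ∀ x i j, ι x i j ∈ Finf T

/-- The unit group of the order as matrices over `C`. -/
def rhoD (ι : Quat A →+* Matrix (Fin 2) (Fin 2) C) : (Quat A)ˣ →* Matrix (Fin 2) (Fin 2) C :=
  ι.toMonoidHom.comp (Units.coeHom _)

section
variable {G : Type} [Group G] (ρ : G →* Matrix (Fin 2) (Fin 2) C)

/-- Base points `w, z` in Drinfeld's half-plane `C - F_∞`, with `z` outside the orbit of `w`. -/
def Adm (T w z : C) : Prop := w ∉ Finf T ∧ z ∉ Finf T ∧ ∀ g, mob (ρ g) w ≠ z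

/-- `χ` is the multiplier `c_a` of the theta function `u_a (z) = ∏_g (z - g w) / (z - g a w)`:
`χ b = u_a (b z) / u_a (z)`, a convergent product of cross ratios. -/
def IsPeriod (w z : C) (a : G) (χ : Gbar G →* Cˣ) : Prop :=
  ∀ b : G, HasProd (fun g : G =>
    (mob (ρ b) z - mob (ρ g) w) * (z - mob (ρ (g * a)) w) /
      ((mob (ρ b) z - mob (ρ (g * a)) w) * (z - mob (ρ g) w))) (χ (cls b) : C)

/-- The period lattice in the torus `Hom(Gbar G, C^*)`. -/
def Lat (w z : C) : Subgroup (Gbar G →* Cˣ) := Subgroup.closure {χ | ∃ a, IsPeriod ρ w z a χ}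

/-- The `C`-points of the Jacobian of the compactified quotient of the half-plane by `G`. -/
abbrev Jac (w z : C) : Type := (Gbar G →* Cˣ) ⧸ Lat ρ w z

end

/-- The old part of `J_0(n)`: generated by the pullbacks of `J_0(m)` along all degeneracy maps
`z ↦ d z`, `m d ∣ n`, `(m) ≠ (n)`. -/
def Jold (T : C) (n : A) (w z : C) : Subgroup (Jac (rho0 T n) w z) :=
  Subgroup.closure {x | ∃ (m d : A) (χ : Gbar (Gam0 n) →* Cˣ) (χ' : Gbar (Gam0 m) →* Cˣ),
    m * d ∣ n ∧ ¬ n ∣ m ∧ x = QuotientGroup.mk χ ∧ ∀ (g : Gam0 n) (g' : Gam0 m),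
      !![d, 0; 0, 1] * g.1.1 = g'.1.1 * !![d, 0; 0, 1] → χ (cls g) = χ' (cls g')}

/-- The new quotient of `J_0(n)`. -/
abbrev Jnew (T : C) (n : A) (w z : C) : Type := Jac (rho0 T n) w z ⧸ Jold T n w z

/-- An isogeny from the new quotient to the Jacobian of `G`: a surjective homomorphism with finite
kernel that is induced by a homomorphism of the uniformising tori. -/
def IsIsogeny {G : Type} [Group G] {ρ : G →* Matrix (Fin 2) (Fin 2) C} {T : C} {n : A}
    {w z w' z' : C} (ψ : Jnew T n w z →* Jac ρ w' z') : Prop :=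
  (∃ a : Gbar G →* Gbar (Gam0 n), ∀ χ : Gbar (Gam0 n) →* Cˣ,
    ψ (QuotientGroup.mk (QuotientGroup.mk χ)) = QuotientGroup.mk (χ.comp a)) ∧
  Function.Surjective ψ ∧ Finite ψ.ker

end Pool.Agent.MP_a88b1d_nt.H42
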