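import Pool.Agent.MP_a88b1d_nt.H42.Defs

/-! Polynomials over `F_2` coded by natural numbers. -/

open Polynomial

namespace Pool.Agent.MP_a88b1d_nt.H42

/-- The polynomial whose coefficients are the binary digits of `n`. -/
noncomputable def ofN (n : ℕ) : A :=
  ∑ i ∈ Finset.range n, monomial i (if n.testBit i then 1 else 0)

/-- Carry-less multiplication; correct when `b < 2 ^ fuel`. -/
def clmul : ℕ → ℕ → ℕ → ℕ
  | 0, _, _ => 0
  | k + 1, a, b => (a * (b % 2)) ^^^ clmul k (2 * a) (b / 2)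

theorem coeff_ofN (n i : ℕ) : (ofN n).coeff i = if n.testBit i then 1 else 0 := by
  unfold ofN
  rw [Polynomial.finsetSum_coeff]
  simp only [coeff_monomial]
  rw [Finset.sum_ite_eq' (Finset.range n) i]
  split_ifs with h1 h2 h2
  · rfl
  · rfl
  · exfalso
    have := Nat.ge_two_pow_of_testBit h2
    have h3 := Nat.lt_two_pow_self (n := i)
    simp only [Finset.mem_range] at h1
    omega
  · rfl

theorem ofN_xor (a b : ℕ) : ofN (a ^^^ b) = ofN a + ofN b := by
  ext i
  simp only [coeff_add, coeff_ofN, Nat.testBit_xor]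
  cases a.testBit i <;> cases b.testBit i <;> decide

theorem ofN_zero : ofN 0 = 0 := by simp [ofN]

theorem ofN_one : ofN 1 = 1 := by
  ext i
  rw [coeff_ofN, coeff_one]
  rcases i with _ | i
  · simp
  · simp [Nat.testBit_succ]

theorem ofN_two_mul (a : ℕ) : ofN (2 * a) = ofN a * X := by
  ext i
  rcases i with _ | i
  · simp [coeff_ofN]
  · rw [coeff_mul_X, coeff_ofN, coeff_ofN, Nat.testBit_succ]
    simp

theorem ofN_pow_mul (k a : ℕ) : ofN (2 ^ k * a) = ofN a * X ^ k := by
  induction k with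
  | zero => simp
  | succ k ih => rw [pow_succ', mul_assoc, ofN_two_mul, ih]; ring

theorem ofN_shiftLeft (a k : ℕ) : ofN (a <<< k) = ofN a * X ^ k := by
  rw [Nat.shiftLeft_eq, mul_comm, ofN_pow_mul]

theorem ofN_two_pow (k : ℕ) : ofN (2 ^ k) = X ^ k := by
  have := ofN_pow_mul k 1
  rwa [mul_one, ofN_one, one_mul] at this

theorem ofN_split (b : ℕ) : ofN b = ofN (b % 2) + ofN (b / 2) * X := by
  rw [← ofN_two_mul, ← ofN_xor]
  congr 1
  apply Nat.eq_of_testBit_eq
  intro i
  rw [Nat.testBit_xor]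
  rcases i with _ | i
  · simp
  · simp only [Nat.testBit_succ]
    have h1 : b % 2 / 2 = 0 := by omega
    have h2 : 2 * (b / 2) / 2 = b / 2 := by omega
    rw [h1, h2]; simp

theorem ofN_clmul (k a b : ℕ) (hb : b < 2 ^ k) : ofN (clmul k a b) = ofN a * ofN b := by
  induction k generalizing a b with
  | zero =>
    have : b = 0 := by omega
    subst this; simp [clmul, ofN_zero]
  | succ k ih =>
    rw [clmul, ofN_xor, ih _ _ (by omega), ofN_two_mul, ofN_split b]
    rcases Nat.mod_two_eq_zero_or_one b with h | h <;> rw [h]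
    · simp only [mul_zero, ofN_zero]; ring
    · simp only [mul_one, ofN_one]; ring

theorem ofN_injective : Function.Injective ofN := by
  intro a b h
  apply Nat.eq_of_testBit_eq
  intro i
  have := congrArg (fun f => f.coeff i) h
  simp only [coeff_ofN] at this
  revert this
  cases a.testBit i <;> cases b.testBit i <;> decide

theorem ofN_ne_zero {a : ℕ} (h : a ≠ 0) : ofN a ≠ 0 := by
  rw [← ofN_zero]; exact fun e => h (ofN_injective e)

theorem degree_ofN_lt {a k : ℕ} : (ofN a).degree < k ↔ a < 2 ^ k := by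
  rw [degree_lt_iff_coeff_zero]
  constructor
  · intro h
    apply Nat.lt_pow_two_of_testBit
    intro i hi
    have := h i hi
    rw [coeff_ofN] at this
    revert this
    cases a.testBit i <;> decide
  · intro h m hm
    rw [coeff_ofN, Nat.testBit_lt_two_pow (lt_of_lt_of_le h (Nat.pow_le_pow_right (by norm_num) hm))]
    rfl

theorem natDegree_ofN_le {a k : ℕ} (h : a < 2 ^ (k + 1)) : (ofN a).natDegree ≤ k := by
  by_cases h0 : ofN a = 0
  · simp [h0]
  · have := (natDegree_lt_iff_degree_lt h0).2 (degree_ofN_lt.2 h)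
    omega

theorem le_natDegree_ofN {a k : ℕ} (h : 2 ^ k ≤ a) : k ≤ (ofN a).natDegree ∧ ofN a ≠ 0 := by
  have h0 : ofN a ≠ 0 := ofN_ne_zero (by have := Nat.two_pow_pos k; omega)
  refine ⟨?_, h0⟩
  by_contra hc
  have := degree_ofN_lt.1 ((natDegree_lt_iff_degree_lt h0).1 (not_le.1 hc))
  omega

theorem ofN_surjective : Function.Surjective ofN := by
  intro f
  induction f using Polynomial.induction_on' with
  | add p q hp hq =>
    obtain ⟨a, rfl⟩ := hp
    obtain ⟨b, rfl⟩ := hq
    exact ⟨a ^^^ b, ofN_xor a b⟩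
  | monomial n c =>
    have : c = 0 ∨ c = 1 := by revert c; decide
    rcases this with rfl | rfl
    · exact ⟨0, by simp [ofN_zero]⟩
    · exact ⟨2 ^ n, by rw [ofN_two_pow, monomial_one_right_eq_X_pow]⟩

theorem exists_ofN {f : A} {k : ℕ} (h : f.degree < k) : ∃ a, a < 2 ^ k ∧ ofN a = f := by
  obtain ⟨a, rfl⟩ := ofN_surjective f
  exact ⟨a, degree_ofN_lt.1 h, rfl⟩

theorem add_self_A (f : A) : f + f = 0 := CharTwo.add_self_eq_zero f

theorem pp_eq : pp = ofN 7 := by
  have : (7 : ℕ) = (2 ^ 2 ^^^ 2 ^ 1) ^^^ 2 ^ 0 := by decide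
  rw [this]; simp only [ofN_xor, ofN_two_pow, pp]; ring

theorem qq_eq : qq = ofN 109 := by
  have : (109 : ℕ) = (((2 ^ 6 ^^^ 2 ^ 5) ^^^ 2 ^ 3) ^^^ 2 ^ 2) ^^^ 2 ^ 0 := by decide
  rw [this]; simp only [ofN_xor, ofN_two_pow, qq]; ring

theorem nn_eq : pp * qq = ofN 259 := by
  rw [pp_eq, qq_eq, ← ofN_clmul 7 7 109 (by norm_num)]; rfl

theorem nn_eq' : pp * qq = X ^ 8 + X + 1 := by
  have : (259 : ℕ) = (2 ^ 8 ^^^ 2 ^ 1) ^^^ 2 ^ 0 := by decide
  rw [nn_eq, this]; simp only [ofN_xor, ofN_two_pow]; ring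

end Pool.Agent.MP_a88b1d_nt.H42
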