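import Pool.Agent.MP_a88b1d_nt.H42.Poly

/-!
Specification of the intermediate statements for the disproof of the kernel conjecture at
`q = 2`, `n = pp * qq = T^8 + T + 1`.  Every row proves one of the `Prop`s below from others.
-/

open Polynomial Quaternion

noncomputable section

namespace Pool.Agent.MP_a88b1d_nt.H42

abbrev M2 (R : Type) : Type := Matrix (Fin 2) (Fin 2) R

/-! ## 0. Arithmetic of the quaternion algebra -/

def IRR : Prop := Irreducible pp ∧ pp.natDegree = 2 ∧ Irreducible qq ∧ qq.natDegree = 6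

def RAM : Prop := ∀ v : IsDedekindDomain.HeightOneSpectrum A,
  (∀ x : Quat (v.adicCompletion FF), x ≠ 0 → IsUnit x) ↔ pp * qq ∈ v.asIdeal

def MAXO : Prop := ∀ S : Subalgebra A (Quat FF), S.toSubmodule.FG → (∀ y, Intg y → y ∈ S) →
  ∀ y ∈ S, Intg y

/-! ## 1. Abstract trivalent trees: the vertices are the classes of `V` under `d x y = 0`,
the neighbours of `x` are the `x * s k`. -/

section Tree
variable {V : Type} [Monoid V]

structure IsTree (d : V → V → ℕ) (s : Fin 3 → V) : Prop where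
  comm : ∀ x y, d x y = d y x
  self : ∀ x, d x x = 0
  tri : ∀ x y z, d x z ≤ d x y + d y z
  inv : ∀ g x y, d (g * x) (g * y) = d x y
  par : ∀ x y z, (d x y + d y z + d x z) % 2 = 0
  adj : ∀ k, d 1 (s k) = 1
  uniq : ∀ x u, d x u ≠ 0 → ∃! k, d (x * s k) u + 1 = d x u

/-- Twice the signed length of the overlap of the geodesics `x → y` and `u → u'`. -/
def DD (d : V → V → ℕ) (x y u u' : V) : ℤ := (d x u' : ℤ) - d y u' - d x u + d y u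

structure TreeAPI (d : V → V → ℕ) (s : Fin 3 → V) : Prop where
  congr : ∀ x x' u, d x x' = 0 → d x u = d x' u
  adjx : ∀ x k, d x (x * s k) = 1
  nbr : ∀ x y, d x y = 1 → ∃ k, d (x * s k) y = 0
  nbd : ∀ x k k', d (x * s k) (x * s k') = 0 → k = k'
  two : ∀ x y u u', d x y = 1 → d u u' = 1 → DD d x y u u' =
    (if d x u = 0 ∧ d y u' = 0 then 2 else 0) - (if d x u' = 0 ∧ d y u = 0 then 2 else 0)
  far : ∀ x y u u', d x y = 1 → DD d x y u u' ≠ 0 → d u x ≤ d u u'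
  conn : ∀ (P : V → Prop) (x : V), (∀ y, d x y = 0 → P y) →
    (∀ y y', d y y' = 1 → d x y + 1 = d x y' → P y → P y') → ∀ y, P y
  star : ∀ x u, ∑ k, (d (x * s k) u : ℤ) = 3 * d x u + if d x u = 0 then 3 else 1

variable {G : Type} [Group G]

def Proper (d : V → V → ℕ) (ρ : G →* V) : Prop := ∀ R : ℕ, {g | d 1 (ρ g) ≤ R}.Finite

/-- The pairing of the paths `x → y` and `u → u'` in the quotient graph (times 2). -/
def Psi (d : V → V → ℕ) (ρ : G →* V) (x y u u' : V) : ℤ :=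
  ∑ᶠ g, DD d x y (ρ g * u) (ρ g * u')

structure PsiAPI (d : V → V → ℕ) (s : Fin 3 → V) (ρ : G →* V) : Prop where
  prop : ∀ x y (R : ℕ), {g | d x (ρ g * y) ≤ R}.Finite
  fin : ∀ x y u u', (Function.support fun g => DD d x y (ρ g * u) (ρ g * u')).Finite
  symm : ∀ x y u u', Psi d ρ x y u u' = Psi d ρ u u' x y
  congr : ∀ x y u v x' y' u' v', d x x' = 0 → d y y' = 0 → d u u' = 0 → d v v' = 0 →
    Psi d ρ x y u v = Psi d ρ x' y' u' v'
  coc : ∀ x y z u u', Psi d ρ x y u u' + Psi d ρ y z u u' = Psi d ρ x z u u'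
  coc' : ∀ x y u u' u'', Psi d ρ x y u u' + Psi d ρ x y u' u'' = Psi d ρ x y u u''
  inv : ∀ a x y u u', Psi d ρ (ρ a * x) (ρ a * y) u u' = Psi d ρ x y u u'
  inv' : ∀ a x y u u', Psi d ρ x y (ρ a * u) (ρ a * u') = Psi d ρ x y u u'
  self : ∀ x u u', Psi d ρ x x u u' = 0
  anti : ∀ x y u u', Psi d ρ y x u u' = - Psi d ρ x y u u'
  base : ∀ a x y u, Psi d ρ x y u (ρ a * u) = Psi d ρ x y 1 (ρ a)
  base' : ∀ a x u u', Psi d ρ x (ρ a * x) u u' = Psi d ρ 1 (ρ a) u u'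
  hom : ∀ a b x y, Psi d ρ x y 1 (ρ (a * b)) = Psi d ρ x y 1 (ρ a) + Psi d ρ x y 1 (ρ b)
  hom' : ∀ a b u u', Psi d ρ 1 (ρ (a * b)) u u' = Psi d ρ 1 (ρ a) u u' + Psi d ρ 1 (ρ b) u u'
  harm : ∀ a x, ∑ k, Psi d ρ x (x * s k) 1 (ρ a) = 0
  far : ∀ x y u u', d x y = 1 → Psi d ρ x y u u' ≠ 0 → ∃ g, d (ρ g * u) x ≤ d u u'

/-- Row TA. -/
def TA : Prop := ∀ (V : Type) [Monoid V] (d : V → V → ℕ) (s : Fin 3 → V),
  IsTree d s → TreeAPI d s

/-- Row PA. -/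
def PA : Prop := ∀ (V : Type) [Monoid V] (d : V → V → ℕ) (s : Fin 3 → V) (G : Type) [Group G]
  (ρ : G →* V), IsTree d s → Proper d ρ → PsiAPI d s ρ

/-- The third neighbour index of the dart `e`; its source vertex is `e / 3`. -/
def kk (e : ℕ) : Fin 3 := ⟨e % 3, Nat.mod_lt _ (by norm_num)⟩

/-- `l` is a walk of darts from vertex `j` to vertex `j'` in a graph with `N` vertices. -/
def Walk (N : ℕ) (tgt : ℕ → ℕ) : ℕ → List ℕ → ℕ → Prop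
  | j, [], j' => j = j'
  | j, e :: l, j' => e < 3 * N ∧ e / 3 = j ∧ Walk N tgt (tgt e) l j'

/-- The combinatorial pairing of two walks. -/
def gram (rev : ℕ → ℕ) (l l' : List ℕ) : ℤ :=
  (l.map fun e => (l'.map fun e' =>
    (if e = e' then (2 : ℤ) else 0) - (if e = rev e' then 2 else 0)).sum).sum

/-- A presentation of the quotient graph for a free action: representatives `g j`, `j < N`. -/
structure QGraph (d : V → V → ℕ) (s : Fin 3 → V) (ρ : G →* V) (N : ℕ) (g : ℕ → V)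
    (tgt rev : ℕ → ℕ) (γ : ℕ → G) : Prop where
  g0 : g 0 = 1
  pos : 0 < N
  tgt_lt : ∀ e, e < 3 * N → tgt e < N
  rev_lt : ∀ e, e < 3 * N → rev e < 3 * N
  rev_rev : ∀ e, e < 3 * N → rev (rev e) = e
  src_rev : ∀ e, e < 3 * N → rev e / 3 = tgt e
  gam_rev : ∀ e, e < 3 * N → γ e * γ (rev e) = 1
  step : ∀ e, e < 3 * N → d (g (e / 3) * s (kk e)) (ρ (γ e) * g (tgt e)) = 0
  base : ∀ a j, j < N → d 1 (ρ a * g j) = 0 → a = 1 ∧ j = 0

/-- Row DCOMB. -/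
def DCOMB : Prop := ∀ (V : Type) [Monoid V] (d : V → V → ℕ) (s : Fin 3 → V) (G : Type) [Group G]
  (ρ : G →* V) (N : ℕ) (g : ℕ → V) (tgt rev : ℕ → ℕ) (γ : ℕ → G), IsTree d s → Proper d ρ →
  QGraph d s ρ N g tgt rev γ → ∀ l l', Walk N tgt 0 l 0 → Walk N tgt 0 l' 0 →
    Psi d ρ 1 (ρ (l.map γ).prod) 1 (ρ (l'.map γ).prod) = gram rev l l'

end Tree

/-! ## 2. The Bruhat-Tits tree of `PGL_2(F_∞)` -/

variable {C : Type} [NontriviallyNormedField C] [Algebra (ZMod 2) C]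

theorem charP_C : CharP C 2 := charP_of_injective_algebraMap (algebraMap (ZMod 2) C).injective 2

theorem add_self_C (x : C) : x + x = 0 := by
  have := charP_C (C := C)
  exact CharTwo.add_self_eq_zero x

theorem aeval_mem_Finf (T : C) (f : A) : aeval T f ∈ Finf T := by
  apply Subfield.le_topologicalClosure
  induction f using Polynomial.induction_on' with
  | add p q hp hq => rw [map_add]; exact add_mem hp hq
  | monomial n c =>
    rw [aeval_monomial]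
    have hT : T ∈ Subfield.closure ({T} : Set C) :=
      Subfield.subset_closure (Set.mem_singleton T)
    refine mul_mem ?_ (pow_mem hT n)
    have : c = 0 ∨ c = 1 := by revert c; decide
    rcases this with rfl | rfl
    · rw [map_zero]; exact zero_mem _
    · rw [map_one]; exact one_mem _

/-- `GL_2(F_∞)` as a monoid of matrices. -/
def MK (T : C) : Submonoid (M2 C) where
  carrier := {x | (∀ i j, x i j ∈ Finf T) ∧ x.det ≠ 0}
  one_mem' := ⟨fun i j => by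
    rw [Matrix.one_apply]; split_ifs
    · exact one_mem _
    · exact zero_mem _, by simp⟩
  mul_mem' := fun {x y} hx hy => ⟨fun i j => by
    rw [Matrix.mul_apply]; exact sum_mem fun k _ => mul_mem (hx.1 i k) (hy.1 k j),
    by rw [Matrix.det_mul]; exact mul_ne_zero hx.2 hy.2⟩

def nrm (x : M2 C) : ℝ := max (max ‖x 0 0‖ ‖x 0 1‖) (max ‖x 1 0‖ ‖x 1 1‖)

/-- The distance of the lattice classes `x O^2`, `y O^2`. -/
def dd (T : C) (x y : MK T) : ℕ :=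
  ⌊Real.logb ‖T‖ (nrm (x.1.adjugate * y.1) ^ 2 / (‖x.1.det‖ * ‖y.1.det‖))⌋₊

def evM (T : C) (g : M2 A) : M2 C := g.map (aeval T)

open Classical in
/-- A polynomial matrix of nonzero determinant as an element of `MK T`. -/
def pm (T : C) (g : M2 A) : MK T := if h : evM T g ∈ MK T then ⟨evM T g, h⟩ else 1

def stA : Fin 3 → M2 A := ![!![1, 0; 0, X], !![1, X; 0, X], !![X, 0; 0, 1]]

def st (T : C) (k : Fin 3) : MK T := pm T (stA k)

/-- A homomorphism to matrices over `F_∞` as a homomorphism to `MK T`. -/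
def lift {G : Type} [Group G] (T : C) (ρ : G →* M2 C) (h : ∀ g i j, ρ g i j ∈ Finf T) :
    G →* MK T :=
  ρ.codRestrict (MK T) fun g => ⟨h g, by
    have := (((Group.isUnit g).map ρ).map Matrix.detMonoidHom).ne_zero
    simpa using this⟩

def toM {G : Type} [Group G] {T : C} (ρ : G →* MK T) : G →* M2 C := (MK T).subtype.comp ρ

def rG (T : C) : GL (Fin 2) A →* MK T :=
  lift T ((aeval T : A →ₐ[ZMod 2] C).mapMatrix.toRingHom.toMonoidHom.comp (Units.coeHom _))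
    fun g i j => aeval_mem_Finf T (g.1 i j)

def r0 (T : C) (m : A) : Gam0 m →* MK T := (rG T).comp (Gam0 m).subtype

def rD {T : C} {ι : Quat A →+* M2 C} (h : Emb T ι) : (Quat A)ˣ →* MK T :=
  lift T (rhoD ι) fun g i j => h.2 g.1 i j

theorem toM_r0 (T : C) (m : A) : toM (r0 T m) = rho0 T m := rfl

theorem toM_rD {T : C} {ι : Quat A →+* M2 C} (h : Emb T ι) : toM (rD h) = rhoD ι := rfl

theorem rG_val (T : C) (g : GL (Fin 2) A) : (rG T g).1 = evM T g.1 := rfl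

theorem r0_eq (T : C) (m : A) (g : Gam0 m) : r0 T m g = rG T g.1 := rfl

theorem rD_val {T : C} {ι : Quat A →+* M2 C} (h : Emb T ι) (g : (Quat A)ˣ) :
    (rD h g).1 = ι g.1 := rfl

def Good {G : Type} [Group G] {T : C} (ρ : G →* MK T) : Prop :=
  (∀ g, (ρ g).1.det = 1) ∧ Proper (dd T) ρ

/-- Row LT: `F_∞ = F_2((1/T))`. -/
structure LT (T : C) : Prop where
  ev : ∀ f : A, f ≠ 0 → ‖aeval T f‖ = ‖T‖ ^ f.natDegree
  lead : ∀ x ∈ Finf T, x ≠ 0 → ∃ n : ℤ, ‖x - T ^ n‖ < ‖T‖ ^ n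
  root : ∃ e ∈ Finf T, e ^ 2 + T ^ 3 * e = T + 1 ∧ ‖e‖ < 1

/-- Row TREE. -/
structure TREE (T : C) : Prop where
  tree : IsTree (dd T) (st T)
  spec : ∀ x y : MK T,
    ‖T‖ ^ dd T x y * (‖x.1.det‖ * ‖y.1.det‖) = nrm (x.1.adjugate * y.1) ^ 2

/-- Row PM. -/
structure PM (T : C) : Prop where
  val : ∀ g : M2 A, g.det ≠ 0 → (pm T g).1 = evM T g
  mul : ∀ g h : M2 A, g.det ≠ 0 → h.det ≠ 0 → pm T (g * h) = pm T g * pm T h
  one : pm T 1 = 1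
  rg : ∀ g : GL (Fin 2) A, rG T g = pm T g.1
  zero : ∀ g h : M2 A, g.det ≠ 0 → h.det ≠ 0 →
    (∀ i j, 2 * ((g.adjugate * h) i j).natDegree ≤ g.det.natDegree + h.det.natDegree) →
    dd T (pm T g) (pm T h) = 0
  low : ∀ (g h : M2 A) (i j : Fin 2) (k : ℕ), g.det ≠ 0 → h.det ≠ 0 → (g.adjugate * h) i j ≠ 0 →
    g.det.natDegree + h.det.natDegree + k ≤ 2 * ((g.adjugate * h) i j).natDegree →
    k ≤ dd T (pm T g) (pm T h)
  goodG : Good (rG T)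
  good0 : ∀ m, Good (r0 T m)

/-! ## 3. Theta periods -/

def cr (x y u u' : C) : C := (y - u) * (x - u') / ((y - u') * (x - u))

def QQ (M : M2 C) (x y : C) : C := x * (M 1 0 * y + M 1 1) - (M 0 0 * y + M 0 1)

def den (M : M2 C) (z : C) : C := M 1 0 * z + M 1 1

/-- `1, x, y, x y` have norm 1 and residues independent over `F_2`. -/
def Orth (x y : C) : Prop := ‖x‖ = 1 ∧ ‖y‖ = 1 ∧
  ∀ M : M2 C, (∀ i j, M i j = 0 ∨ M i j = 1) → M ≠ 0 → ‖QQ M x y‖ = 1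

/-- Row MOB. -/
structure MOB (T : C) : Prop where
  den_ne : ∀ (g : MK T) (z : C), z ∉ Finf T → den g.1 z ≠ 0
  om : ∀ (g : MK T) (z : C), z ∉ Finf T → mob g.1 z ∉ Finf T
  one : ∀ z : C, mob 1 z = z
  mul : ∀ (g h : MK T) (z : C), z ∉ Finf T → mob (g.1 * h.1) z = mob g.1 (mob h.1 z)
  sub : ∀ (g h : MK T) (z w : C), z ∉ Finf T → w ∉ Finf T →
    mob g.1 z - mob h.1 w = QQ (g.1.adjugate * h.1) z w / (den g.1 z * den h.1 w)
  sub' : ∀ (g : MK T) (z w : C), z ∉ Finf T → w ∉ Finf T →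
    mob g.1 z - mob g.1 w = g.1.det * (z - w) / (den g.1 z * den g.1 w)
  crinv : ∀ (g : MK T) (x y u u' : C), x ∉ Finf T → y ∉ Finf T → u ∉ Finf T → u' ∉ Finf T →
    cr (mob g.1 x) (mob g.1 y) (mob g.1 u) (mob g.1 u') = cr x y u u'

/-- Row CONV. -/
def CONV (T : C) : Prop := ∀ (G : Type) [Group G] (ρ : G →* MK T), Good ρ → ∀ x y u u' : C,
  x ∉ Finf T → y ∉ Finf T → u ∉ Finf T → u' ∉ Finf T →
  (∀ g, mob (ρ g).1 u ≠ x ∧ mob (ρ g).1 u ≠ y ∧ mob (ρ g).1 u' ≠ x ∧ mob (ρ g).1 u' ≠ y) →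
  ∃ c : C, c ≠ 0 ∧ HasProd (fun g => cr x y (mob (ρ g).1 u) (mob (ρ g).1 u')) c

/-- The factor of the period `c_a(b)` at `g`. -/
def fac {G : Type} [Group G] {T : C} (ρ : G →* MK T) (w z : C) (a b g : G) : C :=
  cr z (mob (ρ b).1 z) (mob (ρ g).1 w) (mob (ρ (g * a)).1 w)

/-- The period `c_a(b)`. -/
def per {G : Type} [Group G] {T : C} (ρ : G →* MK T) (w z : C) (a b : G) : C :=
  ∏' g, fac ρ w z a b g

structure PerAPI {G : Type} [Group G] {T : C} (ρ : G →* MK T) : Prop where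
  has : ∀ w z a b, Adm (toM ρ) T w z → HasProd (fac ρ w z a b) (per ρ w z a b)
  ne : ∀ w z a b, Adm (toM ρ) T w z → per ρ w z a b ≠ 0
  mul : ∀ w z a b b', Adm (toM ρ) T w z →
    per ρ w z a (b * b') = per ρ w z a b * per ρ w z a b'
  mul' : ∀ w z a a' b, Adm (toM ρ) T w z →
    per ρ w z (a * a') b = per ρ w z a b * per ρ w z a' b
  indz : ∀ w z z' a b, Adm (toM ρ) T w z → Adm (toM ρ) T w z' → per ρ w z a b = per ρ w z' a b
  indw : ∀ w w' z a b, Adm (toM ρ) T w z → Adm (toM ρ) T w' z → per ρ w z a b = per ρ w' z a b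

/-- Row FORM. -/
def FORM (T : C) : Prop := ∀ (G : Type) [Group G] (ρ : G →* MK T), Good ρ → PerAPI ρ

/-- Row ORTH. -/
structure ORTH (T : C) : Prop where
  ex : ∃ w z z' : C, Orth z w ∧ Orth z' w ∧ Orth z' z ∧ Orth (z ^ 2) (w ^ 2)
  lead : ∀ M : M2 C, (∀ i j, M i j ∈ Finf T) → M ≠ 0 → ∃ (n : ℤ) (M0 : M2 C),
    (∀ i j, M0 i j = 0 ∨ M0 i j = 1) ∧ M0 ≠ 0 ∧ nrm M = ‖T‖ ^ n ∧
      ∀ x y : C, ‖x‖ = 1 → ‖y‖ = 1 → ‖QQ M x y - T ^ n * QQ M0 x y‖ < ‖T‖ ^ n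
  norm : ∀ x y : C, Orth x y → ∀ M : M2 C, (∀ i j, M i j ∈ Finf T) → ‖QQ M x y‖ = nrm M
  adm : ∀ x y : C, Orth x y → x ∉ Finf T ∧ y ∉ Finf T ∧ ∀ g : MK T, mob g.1 y ≠ x

/-- Row NORM. -/
def NORM (T : C) : Prop := ∀ (G : Type) [Group G] (ρ : G →* MK T), Good ρ → ∀ w z a b,
  Orth z w → ‖per ρ w z a b‖ ^ 2 = ‖T‖ ^ Psi (dd T) ρ 1 (ρ b) 1 (ρ a)

/-- Row TORS. -/
def TORS (T : C) : Prop := ∀ (G : Type) [Group G] (ρ : G →* MK T), Good ρ → ∀ w z a b,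
  Orth z w → Orth (z ^ 2) (w ^ 2) → per ρ w z a b = per ρ (w ^ 2) (z ^ 2) a b →
    ∀ k : ℕ, 0 < k → per ρ w z a b ^ k = 1 → per ρ w z a b = 1

def NormIs {G : Type} [Group G] {T : C} (ρ : G →* MK T) (χ : Gbar G →* Cˣ) (a : G) : Prop :=
  ∀ b, ‖(χ (cls b) : C)‖ ^ 2 = ‖T‖ ^ Psi (dd T) ρ 1 (ρ b) 1 (ρ a)

def PerOK {G : Type} [Group G] {T : C} (ρ : G →* MK T) : Prop :=
  (∃ w z, Adm (toM ρ) T w z) ∧ ∀ w z, Adm (toM ρ) T w z →
    (∀ a, ∃ χ, IsPeriod (toM ρ) w z a χ ∧ NormIs ρ χ a) ∧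
      ∀ χ ∈ Lat (toM ρ) w z, ∃ a, NormIs ρ χ a

/-- Row PER. -/
def PER (T : C) : Prop := ∀ (G : Type) [Group G] (ρ : G →* MK T), Good ρ → PerOK ρ

/-! ## 4. The side of `Γ_0(n)` -/

def UU (b : A) : GL (Fin 2) A :=
  ⟨!![1, b; 0, 1], !![1, -b; 0, 1], by simp [Matrix.one_fin_two], by simp [Matrix.one_fin_two]⟩

def WW : GL (Fin 2) A :=
  ⟨!![0, 1; 1, 0], !![0, 1; 1, 0], by simp [Matrix.one_fin_two], by simp [Matrix.one_fin_two]⟩

def vv (T : C) (i : ℕ) : MK T := pm T !![X ^ i, 0; 0, 1]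

/-- `d / c` modulo the prime `m` of norm `N` has code `x` (`x = N` means infinity). -/
def IsPt1 (m : A) (N x : ℕ) (c d : A) : Prop := (x = N ∧ m ∣ c) ∨ (x < N ∧ m ∣ d - c * ofN x)

/-- The coset `Γ_0(n) g` is the point `P` of `P^1(F_4) × P^1(F_64)`. -/
def IsPt (P : ℕ × ℕ) (g : GL (Fin 2) A) : Prop :=
  IsPt1 pp 4 P.1 (g.1 1 0) (g.1 1 1) ∧ IsPt1 qq 64 P.2 (g.1 1 0) (g.1 1 1)

def Valid (P : ℕ × ℕ) : Prop := P.1 ≤ 4 ∧ P.2 ≤ 64

def ad (N t x : ℕ) : ℕ := if x = N then N else x ^^^ t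

/-- `X^k` modulo `pp` and modulo `qq`, `k ≤ 7`. -/
def tp (k : ℕ) : ℕ := [1, 2, 3, 1, 2, 3, 1, 2].getD k 0
def tq (k : ℕ) : ℕ := [1, 2, 4, 8, 16, 32, 45, 55].getD k 0

def addT (k : ℕ) (P : ℕ × ℕ) : ℕ × ℕ := (ad 4 (tp k) P.1, ad 64 (tq k) P.2)

def tab (t y : ℕ) : ℕ := (t >>> (7 * y)) % 128

def TW : ℕ := 239263475313086190817697313944892727243433750795355593069533940719320655295304541028704599632969435793411811075396334492271254566699200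
def TM : ℕ := 46575040740476939411435359523855765247508912990242987066441207517839762820866271146211060404483858780674979342839798333282109728691028864
def TD : ℕ := 46570082303334076128223536547153061139867479086047226722073144469547096651692101995097648521195395631959689704539041632918210310962809344

/-- Inversion. -/
def wP (P : ℕ × ℕ) : ℕ × ℕ := ([4, 1, 3, 2, 0].getD P.1 0, tab TW P.2)
/-- Multiplication and division by `pp` modulo `qq`. -/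
def mp (y : ℕ) : ℕ := tab TM y
def dp (y : ℕ) : ℕ := tab TD y

/-- Row PT. -/
structure PT : Prop where
  ex : ∀ g, ∃ P, IsPt P g
  valid : ∀ P g, IsPt P g → Valid P
  uniq : ∀ P P' g, IsPt P g → IsPt P' g → P = P'
  orb : ∀ P g g', IsPt P g → IsPt P g' → g' * g⁻¹ ∈ Gam0 (pp * qq)
  orbq : ∀ y (g g' : GL (Fin 2) A), IsPt1 qq 64 y (g.1 1 0) (g.1 1 1) →
    IsPt1 qq 64 y (g'.1 1 0) (g'.1 1 1) → g' * g⁻¹ ∈ Gam0 qq
  left : ∀ P g γ, γ ∈ Gam0 (pp * qq) → IsPt P g → IsPt P (γ * g)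
  leftq : ∀ y (g γ : GL (Fin 2) A), γ ∈ Gam0 qq → IsPt1 qq 64 y (g.1 1 0) (g.1 1 1) →
    IsPt1 qq 64 y ((γ * g).1 1 0) ((γ * g).1 1 1)
  surj : ∀ P, Valid P → ∃ g, IsPt P g
  actU : ∀ k P g, k ≤ 7 → IsPt P g → IsPt (addT k P) (g * UU (X ^ k))
  actW : ∀ P g, IsPt P g → IsPt (wP P) (g * WW)
  gen : ∀ (β : Type) (F : ℕ × ℕ → β) (i : ℕ) (b : A),
    (∀ k P, k ≤ i → k ≤ 7 → Valid P → F (addT k P) = F P) → 7 ≤ i ∨ b.natDegree ≤ i →
    ∀ P P' g, IsPt P g → IsPt P' (g * UU b) → F P' = F P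
  mulp : ∀ y (c d : A), IsPt1 qq 64 y c d → IsPt1 qq 64 (mp y) c (pp * d)
  mulp' : ∀ y (c d : A), IsPt1 qq 64 (mp y) c (pp * d) → y ≤ 64 → IsPt1 qq 64 y c d
  divp : ∀ y u (c d : A), u < 4 → IsPt1 qq 64 y c d →
    IsPt1 qq 64 (dp (ad 64 u y)) (pp * c) (d - c * ofN u)
  divp' : ∀ y u (c d : A), u < 4 → y ≤ 64 →
    IsPt1 qq 64 (dp (ad 64 u y)) (pp * c) (d - c * ofN u) → IsPt1 qq 64 y c d

/-- Row GEN. -/
def GEN : Prop := ∀ S : GL (Fin 2) A → Prop, S 1 → (∀ g, S g → S (g * WW)) →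
  (∀ g b, S g → S (g * UU b)) → ∀ g, S g

/-- Row DG: the degeneracy homomorphisms. -/
def DG : Prop := ∀ n m d : A, n ≠ 0 → m * d ∣ n → ∃ D : Gam0 n →* Gam0 m,
  ∀ (g : Gam0 n) (g' : Gam0 m),
    !![d, 0; 0, 1] * g.1.1 = g'.1.1 * !![d, 0; 0, 1] ↔ g' = D g

/-- `μ` maps to zero in `Hom(Γ_0(qq), ℤ)^∨` along both degeneracy maps. -/
def New (μ : Gam0 (pp * qq)) : Prop := ∀ d : A, d = 1 ∨ d = pp →
  ∀ (φ : Gam0 qq →* Multiplicative ℤ) (g' : Gam0 qq),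
    !![d, 0; 0, 1] * μ.1.1 = g'.1.1 * !![d, 0; 0, 1] → φ g' = 1

/-- `f i P` is the value of the harmonic cochain of `μ` on the edge `g v_i → g v_(i+1)`. -/
def Rel (T : C) (μ : Gam0 (pp * qq)) (f : ℕ → ℕ × ℕ → ℤ) : Prop :=
  ∀ i P g, IsPt P g → f i P =
    Psi (dd T) (r0 T (pp * qq)) (rG T g * vv T i) (rG T g * vv T (i + 1)) 1 (r0 T (pp * qq) μ)

structure Sys1 (f : ℕ → ℕ × ℕ → ℤ) : Prop where
  inv : ∀ i k P, k ≤ i → k ≤ 7 → Valid P → f i (addT k P) = f i P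
  tri : ∀ P, Valid P → f 0 P + f 0 (wP P) + f 0 (wP (addT 0 P)) = 0
  step : ∀ i P, i < 7 → Valid P → f (i + 1) P = f i P + f i (addT (i + 1) P)
  cusp : ∀ i P, 7 ≤ i → Valid P → f i P = 0

def SysA (f : ℕ → ℕ × ℕ → ℤ) : Prop :=
  ∀ y, y ≤ 64 → f 0 (0, y) + f 0 (1, y) + f 0 (2, y) + f 0 (3, y) + f 0 (4, y) = 0

def SysB (f : ℕ → ℕ × ℕ → ℤ) : Prop :=
  ∀ y, y ≤ 64 → f 2 (0, mp y) - f 1 (wP (4, dp (ad 64 0 y))) - f 1 (wP (4, dp (ad 64 1 y))) +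
    f 0 (addT 1 (wP (4, dp (ad 64 2 y)))) + f 0 (addT 1 (wP (4, dp (ad 64 3 y)))) = 0

/-- Rows EQ1, EQA, EQB. -/
def EQ1 (T : C) : Prop := ∀ μ f, Rel T μ f → Sys1 f
def EQA (T : C) : Prop := ∀ μ f, New μ → Rel T μ f → SysA f
def EQB (T : C) : Prop := ∀ μ f, New μ → Rel T μ f → SysB f

/-- `f` is a coboundary modulo 3. -/
def Cob (f : ℕ → ℕ × ℕ → ℤ) : Prop := ∃ F : ℕ → ℕ × ℕ → ZMod 3,
  (∀ i P, Valid P → F (i + 1) P = F i P + (f i P : ZMod 3)) ∧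
  (∀ i k P, k ≤ i → k ≤ 7 → Valid P → F i (addT k P) = F i P) ∧
  ∀ P, Valid P → F 0 (wP P) = F 0 P

/-- Row CERT0. -/
def CERT0 : Prop := ∃ pin : Fin 58 → ℕ × ℕ, (∀ j, Valid (pin j)) ∧ ∀ f, Sys1 f → SysA f →
  SysB f → (∀ j, (3 : ℤ) ∣ f 0 (pin j)) → Cob f

/-- Row COB. -/
def COB (T : C) : Prop := ∀ μ f, Rel T μ f → Cob f → ∀ a : Gam0 (pp * qq),
  (3 : ℤ) ∣ Psi (dd T) (r0 T (pp * qq)) 1 (r0 T (pp * qq) a) 1 (r0 T (pp * qq) μ)

/-- The pairing on the new part has rank at most 58 modulo 3. -/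
def GN (T : C) : Prop := ∃ F : Gam0 (pp * qq) → Fin 58 → ZMod 3,
  (∀ μ ν, F (μ * ν) = F μ + F ν) ∧ ∀ μ, New μ → F μ = 0 → ∀ a : Gam0 (pp * qq),
    (3 : ℤ) ∣ Psi (dd T) (r0 T (pp * qq)) 1 (r0 T (pp * qq) a) 1 (r0 T (pp * qq) μ)

/-! ## 5. The quaternionic side -/

def P0 (x : Quat A) : M2 A :=
  !![x.re + (x.imJ + x.imK) * X ^ 4, X * x.imI + x.imK * X ^ 5;
    x.imI + x.imJ * X ^ 3 + x.imK * (X ^ 4 + X ^ 3), x.re + x.imI + (x.imJ + x.imK) * X ^ 4]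

def P1 (x : Quat A) : M2 A := !![x.imJ, x.imJ + X * x.imK; x.imK, x.imJ]

/-- The standard embedding, `e ^ 2 + T ^ 3 * e = T + 1`. -/
def io (T e : C) (x : Quat A) : M2 C := evM T (P0 x) + e • evM T (P1 x)

def nrd (x : Quat A) : A := x.re ^ 2 + x.re * x.imI + X * x.imI ^ 2 +
  pp * qq * (x.imJ ^ 2 + x.imJ * x.imK + X * x.imK ^ 2)

structure StdEmb (T e : C) (ι : Quat A →+* M2 C) : Prop where
  mem : e ∈ Finf T
  eqn : e ^ 2 + T ^ 3 * e = T + 1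
  small : ‖e‖ < 1
  val : ∀ x, ι x = io T e x
  emb : Emb T ι
  det : ∀ x, (ι x).det = aeval T (nrd x)
  unit : ∀ x : (Quat A)ˣ, nrd x.1 = 1
  star : ∀ x : Quat A, nrd x = 1 → x * star x = 1 ∧ star x * x = 1
  good : Good (rD emb)
  box : ∀ x : Quat A, nrm (ι x) ≤ ‖T‖ ^ 4 → (x.re + (x.imJ + x.imK) * X ^ 4).degree < 5 ∧
    x.imI.degree < 5 ∧ x.imJ.degree < 2 ∧ x.imK.degree < 1

/-- Row EMB. -/
def EMB (T : C) : Prop := ∃ (e : C) (ι : Quat A →+* M2 C), StdEmb T e ι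

/-- Row SN (Skolem-Noether). -/
def SN (T : C) : Prop := ∀ ι ι' : Quat A →+* M2 C, Emb T ι → Emb T ι' →
  ∃ h : MK T, ∀ x, h.1 * ι' x = ι x * h.1

/-- The pairing has rank at least 59 modulo 3. -/
def GramOK {G : Type} [Group G] {T : C} (ρ : G →* MK T) : Prop :=
  ∃ γ : Fin 59 → G, ∀ c : Fin 59 → ℤ,
    (∀ a, (3 : ℤ) ∣ ∑ j, c j * Psi (dd T) ρ 1 (ρ a) 1 (ρ (γ j))) → ∀ j, (3 : ℤ) ∣ c j

/-- Row TRANS. -/
def TRANS (T : C) : Prop := ∀ (G : Type) [Group G] (ρ ρ' : G →* MK T) (h : MK T),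
  (∀ g, h * ρ' g = ρ g * h) → Good ρ → GramOK ρ → Good ρ' ∧ GramOK ρ'

/-- Rows DCHK and GRAM together: the quotient graph and 59 closed walks. -/
def DG59 (T : C) : Prop := ∀ (e : C) (ι : Quat A →+* M2 C) (h : StdEmb T e ι),
  ∃ (g : ℕ → MK T) (tgt rev : ℕ → ℕ) (γ : ℕ → (Quat A)ˣ) (l : Fin 59 → List ℕ),
    QGraph (dd T) (st T) (rD h.emb) 126 g tgt rev γ ∧ (∀ i, Walk 126 tgt 0 (l i) 0) ∧
    ∀ c : Fin 59 → ℤ, (∀ i, (3 : ℤ) ∣ ∑ j, c j * gram rev (l i) (l j)) → ∀ j, (3 : ℤ) ∣ c j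

/-- What the quaternionic side has to deliver (follows from `DG59` and `DCOMB`). -/
def GD (T : C) : Prop := ∀ (e : C) (ι : Quat A →+* M2 C) (h : StdEmb T e ι), GramOK (rD h.emb)

/-! ## 6. The final step -/

/-- Row FIN. -/
def FIN (T : C) : Prop := ∀ (G : Type) [Group G] (ρ : G →* MK T), Good ρ → GramOK ρ →
  ∀ w z w' z' : C, Adm (rho0 T (pp * qq)) T w z → Adm (toM ρ) T w' z' →
    ∀ ψ : Jnew T (pp * qq) w z →* Jac (toM ρ) w' z', IsIsogeny ψ → 3 ∣ Nat.card ψ.ker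

end Pool.Agent.MP_a88b1d_nt.H42
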