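import Mathlib

/-!
Rigid-analytic Jacobians of Drinfeld modular curves and of Drinfeld-Stuhler curves over
`F = F_2(T)` (Gekeler-Reversat, Manin-Drinfeld uniformisation).  Here `q = 2`, so the scalar
matrices in the groups below are trivial.  `A = F_2[T]` is `(ZMod 2)[X]`, and
`Abelianization G ⧸ CommGroup.torsion (Abelianization G)` is the maximal torsion-free abelian
quotient `Gbar` of a group `G`; the Jacobian of the quotient curve of `G` is
`Hom(Gbar, C^*) / Lat`.
-/

open Polynomial Quaternion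

noncomputable section

namespace Pool.Agent.MP_a88b1d_nt.St

/-- The elements of a quaternion algebra over `F` that lie in `A + A i + A j + A i j`. -/
def Intg {a b c : RatFunc (ZMod 2)} (y : ℍ[RatFunc (ZMod 2), a, b, c]) : Prop :=
  ∀ t ∈ [y.re, y.imI, y.imJ, y.imK], t ∈ Set.range (algebraMap (ZMod 2)[X] (RatFunc (ZMod 2)))

/-- The class of a group element in the maximal torsion-free abelian quotient. -/
def cls {G : Type} [Group G] (g : G) : Abelianization G ⧸ CommGroup.torsion (Abelianization G) :=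
  QuotientGroup.mk (Abelianization.of g)

/-- The congruence subgroup `Γ_0(m)` of `GL_2(A)`. -/
def Gam0 (m : (ZMod 2)[X]) : Subgroup (GL (Fin 2) (ZMod 2)[X]) where
  carrier := {g | m ∣ g.1 1 0}
  one_mem' := by simp
  mul_mem' := by
    intro g h hg hh
    simp only [Set.mem_ofPred_eq, Units.val_mul, Matrix.mul_apply, Fin.sum_univ_two] at *
    exact dvd_add (hg.mul_right _) (hh.mul_left _)
  inv_mem' := by
    intro g hg
    simp only [Set.mem_ofPred_eq] at *
    rw [Matrix.coe_units_inv, Matrix.inv_def, Matrix.adjugate_fin_two]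
    simpa using hg.mul_left (Ring.inverse g.1.det)

variable {C : Type} [NontriviallyNormedField C] [Algebra (ZMod 2) C]

/-- `F_∞`: the closure of `F_2(T)` in `C`. -/
def Finf (T : C) : Set C := closure (Subfield.closure {T} : Subfield C)

/-- Fractional linear transformations. -/
def mob (g : Matrix (Fin 2) (Fin 2) C) (z : C) : C := (g 0 0 * z + g 0 1) / (g 1 0 * z + g 1 1)

/-- A subgroup of `GL_2(A)` as matrices over `C`. -/
def rho0 (T : C) (H : Subgroup (GL (Fin 2) (ZMod 2)[X])) (g : H) : Matrix (Fin 2) (Fin 2) C :=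
  g.1.1.map (aeval T)

/-- `ι` is an `A`-algebra map from `R` to `M_2(F_∞)`. -/
def Emb {R : Type} [Ring R] [Algebra (ZMod 2)[X] R] (T : C)
    (ι : R →+* Matrix (Fin 2) (Fin 2) C) : Prop :=
  (∀ f : (ZMod 2)[X], ι (algebraMap (ZMod 2)[X] R f) = Matrix.scalar (Fin 2) (aeval T f)) ∧
    ∀ x i j, ι x i j ∈ Finf T

/-- The unit group of `R` as matrices over `C`. -/
def rhoD {R : Type} [Ring R] (ι : R →+* Matrix (Fin 2) (Fin 2) C) (g : Rˣ) :
    Matrix (Fin 2) (Fin 2) C := ι g.1

section
variable {G : Type} [Group G] (ρ : G → Matrix (Fin 2) (Fin 2) C)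

/-- Base points `w, z` in Drinfeld's half-plane `C - F_∞`, with `z` outside the orbit of `w`. -/
def Adm (T w z : C) : Prop := w ∉ Finf T ∧ z ∉ Finf T ∧ ∀ g, mob (ρ g) w ≠ z

/-- `χ` is the multiplier `c_a` of the theta function `u_a (z) = ∏_g (z - g w) / (z - g a w)`:
`χ b = u_a (b z) / u_a (z)`, a convergent product of cross ratios. -/
def IsPeriod (w z : C) (a : G)
    (χ : Abelianization G ⧸ CommGroup.torsion (Abelianization G) →* Cˣ) : Prop :=
  ∀ b : G, HasProd (fun g : G =>
    (mob (ρ b) z - mob (ρ g) w) * (z - mob (ρ (g * a)) w) /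
      ((mob (ρ b) z - mob (ρ (g * a)) w) * (z - mob (ρ g) w))) (χ (cls b) : C)

/-- Every element of the group has a period. -/
structure HasPeriods (w z : C) : Prop where
  ex : ∀ a, ∃ χ, IsPeriod ρ w z a χ

/-- The period lattice in the torus `Hom(Gbar, C^*)`. -/
def Lat (w z : C) : Subgroup (Abelianization G ⧸ CommGroup.torsion (Abelianization G) →* Cˣ) :=
  Subgroup.closure {χ | ∃ a, IsPeriod ρ w z a χ}

end

/-- The point `χ` of the torus of `H` is the pullback of a point of the torus of `H'` along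
`z ↦ d z`, that is along `g ↦ diag(d, 1) g diag(d, 1)⁻¹`. -/
structure Pulled {H : Subgroup (GL (Fin 2) (ZMod 2)[X])} (H' : Subgroup (GL (Fin 2) (ZMod 2)[X]))
    (d : (ZMod 2)[X]) (χ : Abelianization H ⧸ CommGroup.torsion (Abelianization H) →* Cˣ) :
    Prop where
  ex : ∃ χ' : Abelianization H' ⧸ CommGroup.torsion (Abelianization H') →* Cˣ,
    ∀ (g : H) (g' : H'),
      !![d, 0; 0, 1] * g.1.1 = g'.1.1 * !![d, 0; 0, 1] → χ (cls g) = χ' (cls g')

/-- For `H = Γ_0(n)` with period lattice `Λ`: `O` is the old part of `J_0(n)`, generated by the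
pullbacks of `J_0(m)` along all degeneracy maps `z ↦ d z`, `m d ∣ n`, `(m) ≠ (n)`. -/
structure IsOld (n : (ZMod 2)[X]) {H : Subgroup (GL (Fin 2) (ZMod 2)[X])}
    (Λ : Subgroup (Abelianization H ⧸ CommGroup.torsion (Abelianization H) →* Cˣ))
    (O : Subgroup ((Abelianization H ⧸ CommGroup.torsion (Abelianization H) →* Cˣ) ⧸ Λ)) :
    Prop where
  eq : O = Subgroup.closure {x | ∃ m d χ, m * d ∣ n ∧ ¬ n ∣ m ∧ x = QuotientGroup.mk χ ∧
    Pulled (Gam0 m) d χ}

/-- An isogeny from the quotient by `O` of the torus quotient `Hom(L, U) / Λ` to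
`Hom(L', U) / Λ'`: a surjective homomorphism with finite kernel that is induced by a homomorphism
of the uniformising tori, that is by a homomorphism `L' → L` of their character groups. -/
structure IsIsogeny {L L' U : Type} [CommGroup L] [CommGroup L'] [CommGroup U]
    {Λ : Subgroup (L →* U)} {O : Subgroup ((L →* U) ⧸ Λ)} {Λ' : Subgroup (L' →* U)}
    (ψ : ((L →* U) ⧸ Λ) ⧸ O →* (L' →* U) ⧸ Λ') : Prop where
  lift : ∃ a : L' →* L, ∀ χ : L →* U,
    ψ (QuotientGroup.mk (QuotientGroup.mk χ)) = QuotientGroup.mk (χ.comp a)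
  surj : Function.Surjective ψ
  fin : Finite ψ.ker

/-- Every isogeny from the quotient by `O` of `Hom(L, U) / Λ` to `Hom(L', U) / Λ'` has a kernel of
order divisible by 3, not isomorphic to `Z/65 × Z/5`. -/
structure BadKernels {L L' U : Type} [CommGroup L] [CommGroup L'] [CommGroup U]
    {Λ : Subgroup (L →* U)} (O : Subgroup ((L →* U) ⧸ Λ)) (Λ' : Subgroup (L' →* U)) : Prop where
  ker : ∀ ψ : ((L →* U) ⧸ Λ) ⧸ O →* (L' →* U) ⧸ Λ', IsIsogeny ψ →
    3 ∣ Nat.card ψ.ker ∧ IsEmpty (ψ.ker ≃* Multiplicative (ZMod 65 × ZMod 5))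

/-- For `H = Γ_0(n)` and the order `R`: embeddings, base points and periods exist, and every
isogeny from the new quotient of `J_0(n)` to the Jacobian of the unit group of `R` has a bad
kernel. -/
structure KernelFails (T : C) (n : (ZMod 2)[X]) (H : Subgroup (GL (Fin 2) (ZMod 2)[X]))
    (R : Type) [Ring R] [Algebra (ZMod 2)[X] R] : Prop where
  emb : ∃ ι : R →+* Matrix (Fin 2) (Fin 2) C, Emb T ι
  adm : ∃ w z, Adm (rho0 T H) T w z
  per : ∀ w z, Adm (rho0 T H) T w z → HasPeriods (rho0 T H) w z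
  admD : ∀ ι : R →+* Matrix (Fin 2) (Fin 2) C, Emb T ι → ∃ w z, Adm (rhoD ι) T w z
  perD : ∀ ι : R →+* Matrix (Fin 2) (Fin 2) C, Emb T ι → ∀ w z, Adm (rhoD ι) T w z →
    HasPeriods (rhoD ι) w z
  ker : ∀ ι : R →+* Matrix (Fin 2) (Fin 2) C, Emb T ι → ∀ w z w' z', Adm (rho0 T H) T w z →
    Adm (rhoD ι) T w' z' → ∀ Λ O, Λ = Lat (rho0 T H) w z → IsOld n Λ O →
      BadKernels O (Lat (rhoD ι) w' z')

end Pool.Agent.MP_a88b1d_nt.St
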